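import Pool.Agent.R993.RR.Defs

/-! # StT: the log-difference step -/

set_option autoImplicit false

namespace Pool.Agent.R49.RR

open Pool.Agent.R993.RR

theorem mvt {b a c : ℝ} (hb : 0 < b) (ha : 0 < a) (hac : a < c) :
    ∃ θ : ℝ, a / (b + a) ≤ θ ∧ θ ≤ c / (b + c) ∧
      Real.log (b + c) - Real.log (b + a) = θ * (Real.log c - Real.log a) := by
  have hc : 0 < c := ha.trans hac
  have hlt : Real.log a < Real.log c := Real.log_lt_log ha hac
  have hd : ∀ t : ℝ, HasDerivAt (fun t => Real.log (b + Real.exp t))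
      (Real.exp t / (b + Real.exp t)) t := by
    intro t
    have hne : b + Real.exp t ≠ 0 := by positivity
    exact ((Real.hasDerivAt_exp t).const_add b).log hne
  obtain ⟨x, hx, hx'⟩ := exists_hasDerivAt_eq_slope (fun t => Real.log (b + Real.exp t))
    (fun t => Real.exp t / (b + Real.exp t)) hlt
    (fun t _ => (hd t).continuousAt.continuousWithinAt) (fun t _ => hd t)
  simp only [Real.exp_log ha, Real.exp_log hc] at hx'
  have h1 : a < Real.exp x := by
    rw [← Real.exp_log ha]
    exact Real.exp_lt_exp.mpr hx.1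
  have h2 : Real.exp x < c := by
    rw [← Real.exp_log hc]
    exact Real.exp_lt_exp.mpr hx.2
  refine ⟨Real.exp x / (b + Real.exp x), ?_, ?_, ?_⟩
  · rw [div_le_div_iff₀ (by positivity) (by positivity)]
    nlinarith
  · rw [div_le_div_iff₀ (by positivity) (by positivity)]
    nlinarith
  · rw [hx', div_mul_cancel₀ _ (sub_pos.mpr hlt).ne']

theorem stT : StT := by
  intro y z hy hz n
  have hB := B_pos
  have hyn : 0 < B + y n := by have := hy.pos n; linarith
  have hyn2 : 0 < B + y (n + 2) := by have := hy.pos (n + 2); linarith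
  have hzn : 0 < B + z n := by have := hz.pos n; linarith
  have hzn2 : 0 < B + z (n + 2) := by have := hz.pos (n + 2); linarith
  have ey : Real.log (y (n + 3)) = Real.log (B + y (n + 2)) - Real.log (B + y n) := by
    rw [hy.step n, Real.log_div hyn2.ne' hyn.ne']
  have ez : Real.log (z (n + 3)) = Real.log (B + z (n + 2)) - Real.log (B + z n) := by
    rw [hz.step n, Real.log_div hzn2.ne' hzn.ne']
  have e : rho y z (n + 2) - rho y z n = Real.log (z (n + 3)) - Real.log (y (n + 3)) := by
    unfold rho
    rw [ey, ez]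
    ring
  rw [e]
  unfold rho th
  rcases lt_trichotomy (y (n + 3)) (z (n + 3)) with h | h | h
  · obtain ⟨θ, h1, h2, h3⟩ := mvt hB (hy.pos _) h
    exact ⟨θ, (min_le_left _ _).trans h1, h2.trans (le_max_right _ _), h3⟩
  · refine ⟨y (n + 3) / (B + y (n + 3)), min_le_left _ _, le_max_left _ _, ?_⟩
    rw [h]
    ring
  · obtain ⟨θ, h1, h2, h3⟩ := mvt hB (hz.pos _) h
    refine ⟨θ, (min_le_right _ _).trans h1, h2.trans (le_max_left _ _), ?_⟩
    linarith

end Pool.Agent.R49.RR
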